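import Pool.Agent.Y998.CN.Defs

/-!
# Project CN, part PB: Peierls' inequality

For real symmetric matrices with `f.Af ≤ f.Bf` for all `f` and `t ≥ 0`,
`tr exp (-t B) ≤ tr exp (-t A)`.
-/

set_option autoImplicit false

namespace Pool.Agent.Y641.CN

open Finset Matrix Pool.Agent.Y998.ST Pool.Agent.Y998.CN

/-- Orthogonal diagonalisation of a real symmetric matrix. -/
theorem diag_real {S : Type} [Fintype S] [DecidableEq S] (A : Matrix S S ℝ)
    (hA : ∀ x y, A x y = A y x) :
    ∃ (U : Matrix S S ℝ) (a : S → ℝ), U.transpose * U = 1 ∧ U * U.transpose = 1 ∧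
      A = U * diagonal a * U.transpose := by
  have hH : A.IsHermitian := by
    ext x y
    rw [Matrix.conjTranspose_apply]
    simp [hA y x]
  have e1 : star (hH.eigenvectorUnitary : Matrix S S ℝ) =
      (hH.eigenvectorUnitary : Matrix S S ℝ).transpose := by
    ext x y
    rw [Matrix.star_apply, Matrix.transpose_apply]
    simp
  refine ⟨hH.eigenvectorUnitary, hH.eigenvalues, ?_, ?_, ?_⟩
  · rw [← e1]
    exact Matrix.mem_unitaryGroup_iff'.1 hH.eigenvectorUnitary.2
  · rw [← e1]
    exact Matrix.mem_unitaryGroup_iff.1 hH.eigenvectorUnitary.2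
  · have h := hH.spectral_theorem
    rw [← e1]
    rw [Unitary.conjStarAlgAut_apply] at h
    have e2 : (diagonal (RCLike.ofReal ∘ hH.eigenvalues) : Matrix S S ℝ) =
        diagonal hH.eigenvalues := by
      congr 1
    rw [e2] at h
    exact h

/-- The trace of the exponential of a diagonalised matrix. -/
theorem trace_E_diag {S : Type} [Fintype S] [DecidableEq S] (U : Matrix S S ℝ) (a : S → ℝ)
    (h1 : U.transpose * U = 1) (h2 : U * U.transpose = 1) (t : ℝ) :
    (E (-(U * diagonal a * U.transpose)) t).trace = ∑ i, Real.exp (-(t * a i)) := by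
  have hinv : U⁻¹ = U.transpose := Matrix.inv_eq_right_inv h2
  have hU : IsUnit U := ⟨⟨U, U.transpose, h2, h1⟩, rfl⟩
  have e1 : t • (-(U * diagonal a * U.transpose)) =
      U * diagonal (fun i => -(t * a i)) * U⁻¹ := by
    rw [hinv]
    have e2 : diagonal (fun i => -(t * a i)) = (-t) • diagonal a := by
      rw [← Matrix.diagonal_smul]
      congr 1
      funext i
      simp
    rw [e2, Matrix.mul_smul, Matrix.smul_mul, neg_smul, smul_neg]
  unfold E
  rw [e1, Matrix.exp_conj _ _ hU, Matrix.trace_mul_comm, ← Matrix.mul_assoc,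
    Matrix.nonsing_inv_mul U ((Matrix.isUnit_iff_isUnit_det U).1 hU), Matrix.one_mul,
    Matrix.exp_diagonal, Matrix.trace_diagonal]
  refine Finset.sum_congr rfl fun i _ => ?_
  rw [Pi.coe_exp, Real.exp_eq_exp_ℝ]

/-- the quadratic form of a column -/
theorem quad_col {S : Type} [Fintype S] [DecidableEq S] (U A : Matrix S S ℝ) (i : S) :
    ∑ x, ∑ y, U x i * A x y * U y i = (U.transpose * A * U) i i := by
  rw [Matrix.mul_apply]
  simp_rw [Matrix.mul_apply, Finset.sum_mul, Matrix.transpose_apply]
  exact Finset.sum_comm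

theorem t_PB : Pool.Agent.Y998.CN.S_PB := by
  intro S _ _ A B hA hB hAB t ht
  obtain ⟨W, a, hW1, hW2, hWA⟩ := diag_real A hA
  obtain ⟨U, b, hU1, hU2, hUB⟩ := diag_real B hB
  have tA : (E (-A) t).trace = ∑ j, Real.exp (-(t * a j)) := by
    rw [hWA]; exact trace_E_diag W a hW1 hW2 t
  have tB : (E (-B) t).trace = ∑ i, Real.exp (-(t * b i)) := by
    rw [hUB]; exact trace_E_diag U b hU1 hU2 t
  rw [tA, tB]
  set R : Matrix S S ℝ := U.transpose * W with hR
  have hRt : R.transpose = W.transpose * U := by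
    rw [hR, Matrix.transpose_mul, Matrix.transpose_transpose]
  have hR1 : R * R.transpose = 1 := by
    rw [hRt, hR, Matrix.mul_assoc, ← Matrix.mul_assoc W, hW2, Matrix.one_mul, hU1]
  have hR2 : R.transpose * R = 1 := by
    rw [hRt, hR, Matrix.mul_assoc, ← Matrix.mul_assoc U, hU2, Matrix.one_mul, hW1]
  have row : ∀ i, ∑ j, R i j ^ 2 = 1 := by
    intro i
    have h := congrFun (congrFun hR1 i) i
    rw [Matrix.mul_apply, Matrix.one_apply_eq] at h
    rw [← h]
    exact Finset.sum_congr rfl fun j _ => by rw [Matrix.transpose_apply, sq]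
  have col : ∀ j, ∑ i, R i j ^ 2 = 1 := by
    intro j
    have h := congrFun (congrFun hR2 j) j
    rw [Matrix.mul_apply, Matrix.one_apply_eq] at h
    rw [← h]
    exact Finset.sum_congr rfl fun i _ => by rw [Matrix.transpose_apply, sq]
  have qB : ∀ i, (U.transpose * B * U) i i = b i := by
    intro i
    have e : U.transpose * B * U = diagonal b := by
      rw [hUB]
      calc U.transpose * (U * diagonal b * U.transpose) * U
          = (U.transpose * U) * diagonal b * (U.transpose * U) := by
            simp only [Matrix.mul_assoc]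
        _ = diagonal b := by rw [hU1, Matrix.one_mul, Matrix.mul_one]
    rw [e, Matrix.diagonal_apply_eq]
  have qA : ∀ i, (U.transpose * A * U) i i = ∑ j, R i j ^ 2 * a j := by
    intro i
    have e : U.transpose * A * U = R * diagonal a * R.transpose := by
      rw [hRt, hR, hWA]
      simp only [Matrix.mul_assoc]
    rw [e, Matrix.mul_apply]
    refine Finset.sum_congr rfl fun j _ => ?_
    rw [Matrix.mul_diagonal, Matrix.transpose_apply]
    ring
  have key : ∀ i, Real.exp (-(t * b i)) ≤ ∑ j, R i j ^ 2 * Real.exp (-(t * a j)) := by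
    intro i
    have h1 : ∑ j, R i j ^ 2 * a j ≤ b i := by
      rw [← qA i, ← qB i, ← quad_col, ← quad_col]
      exact hAB fun x => U x i
    have h2 : Real.exp (-(t * b i)) ≤ Real.exp (∑ j, R i j ^ 2 • (-(t * a j))) := by
      apply Real.exp_le_exp.2
      have e : ∑ j, R i j ^ 2 • (-(t * a j)) = -(t * ∑ j, R i j ^ 2 * a j) := by
        rw [Finset.mul_sum, ← Finset.sum_neg_distrib]
        refine Finset.sum_congr rfl fun j _ => ?_
        rw [smul_eq_mul]; ring
      rw [e]
      have := mul_le_mul_of_nonneg_left h1 ht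
      linarith
    have h3 := convexOn_exp.map_sum_le (t := Finset.univ) (w := fun j => R i j ^ 2)
      (p := fun j => -(t * a j)) (fun j _ => sq_nonneg _) (row i) (fun j _ => Set.mem_univ _)
    simp only [smul_eq_mul] at h2 h3
    exact h2.trans h3
  calc ∑ i, Real.exp (-(t * b i)) ≤ ∑ i, ∑ j, R i j ^ 2 * Real.exp (-(t * a j)) :=
        Finset.sum_le_sum fun i _ => key i
    _ = ∑ j, ∑ i, R i j ^ 2 * Real.exp (-(t * a j)) := Finset.sum_comm
    _ = ∑ j, Real.exp (-(t * a j)) := by
        refine Finset.sum_congr rfl fun j _ => ?_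
        rw [← Finset.sum_mul, col j, one_mul]

end Pool.Agent.Y641.CN
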